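import Mathlib

/-!
# MP_c52340_nt: the exponent in the multiplier problem is at least two

`L` is the set of integers with a finite base-four expansion with digits `-1, 0, 1`.  For the odd
number `k = 2 * 4 ^ n + 5` (`n ≥ 4`) the least multiplier `m` (so `m > 0`, `m ∈ L`, `k m ∈ L`)
satisfies `4 ^ (2 n) - 8 * 4 ^ n < 12 m < 4 ^ (2 n)`, so it is asymptotic to `k ^ 2 / 48`.
Hence every exponent `C` for which a bound `m ≤ A |k| ^ C` holds for all odd `k`, `|k| ≥ 3`,
satisfies `C ≥ 2`.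
-/

set_option autoImplicit false

namespace Pool.Agent.Results.MP_c52340_nt.QuadraticLowerBound

/-- the set `L` of integers with a finite expansion in base four with digits -1, 0, 1 -/
def L : Set ℤ := {n | ∃ (N : ℕ) (e : ℕ → ℤ), (∀ i, e i = -1 ∨ e i = 0 ∨ e i = 1) ∧
  n = ∑ i ∈ Finset.range N, e i * 4 ^ i}

private lemma zero_mem : (0 : ℤ) ∈ L := ⟨0, fun _ => 0, fun _ => by simp, by simp⟩

/-- prepend a digit -/
private lemma cons_mem {x : ℤ} (hx : x ∈ L) {a : ℤ} (ha : a = -1 ∨ a = 0 ∨ a = 1) :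
    4 * x + a ∈ L := by
  obtain ⟨N, e, he, rfl⟩ := hx
  refine ⟨N + 1, fun i => if i = 0 then a else e (i - 1), ?_, ?_⟩
  · intro i
    by_cases hi : i = 0
    · simp [hi, ha]
    · simp only [hi, if_false]; exact he _
  · rw [Finset.sum_range_succ']
    simp only [Nat.add_eq_zero_iff, one_ne_zero, and_false, if_false, Nat.add_sub_cancel, if_true,
      pow_zero, mul_one]
    rw [Finset.mul_sum]
    congr 1
    apply Finset.sum_congr rfl
    intro i _
    ring

/-- remove the last digit -/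
private lemma uncons {x : ℤ} (hx : x ∈ L) : ∃ y ∈ L, ∃ a : ℤ, (a = -1 ∨ a = 0 ∨ a = 1) ∧
    x = 4 * y + a := by
  obtain ⟨N, e, he, rfl⟩ := hx
  rcases N with _ | N
  · exact ⟨0, zero_mem, 0, by simp, by simp⟩
  · refine ⟨∑ i ∈ Finset.range N, e (i + 1) * 4 ^ i, ⟨N, fun i => e (i + 1), fun i => he _, rfl⟩,
      e 0, he 0, ?_⟩
    rw [Finset.sum_range_succ', Finset.mul_sum]
    simp only [pow_zero, mul_one]
    congr 1
    apply Finset.sum_congr rfl
    intro i _
    ring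

/-- every element of `L` splits as `4 ^ n y₁ + y₀` -/
private lemma split (n : ℕ) : ∀ {x : ℤ}, x ∈ L → ∃ y ∈ L, ∃ z ∈ L, 3 * z ≤ 4 ^ n - 1 ∧
    -(4 ^ n - 1) ≤ 3 * z ∧ x = 4 ^ n * y + z := by
  induction n with
  | zero => intro x hx; exact ⟨x, hx, 0, zero_mem, by norm_num, by norm_num, by ring⟩
  | succ n ih =>
    intro x hx
    obtain ⟨x', hx', a, ha, rfl⟩ := uncons hx
    obtain ⟨y, hy, z, hz, h1, h2, rfl⟩ := ih hx'
    refine ⟨y, hy, 4 * z + a, cons_mem hz ha, ?_, ?_, by ring⟩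
    · rw [pow_succ]; rcases ha with h | h | h <;> subst h <;> linarith
    · rw [pow_succ]; rcases ha with h | h | h <;> subst h <;> linarith

/-- `2 y ∈ L` with `y ∈ L` forces `y = 0` -/
private lemma two_mul_mem {y : ℤ} (hy : y ∈ L) (h2 : 2 * y ∈ L) : y = 0 := by
  have key : ∀ N : ℕ, ∀ y : ℤ, y.natAbs ≤ N → y ∈ L → 2 * y ∈ L → y = 0 := by
    intro N
    induction N with
    | zero => intro y h _ _; omega
    | succ N ih =>
      intro y hN hy h2
      obtain ⟨y', hy', a, ha, rfl⟩ := uncons hy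
      obtain ⟨x', hx', b, hb, hx⟩ := uncons h2
      have ha0 : a = 0 := by rcases ha with h | h | h <;> rcases hb with h' | h' | h' <;> omega
      subst ha0
      have hb0 : b = 0 := by rcases hb with h' | h' | h' <;> omega
      subst hb0
      have hx2 : x' = 2 * y' := by omega
      subst hx2
      by_cases h0 : y' = 0
      · omega
      · have := ih y' (by omega) hy' hx'
        omega
  exact key y.natAbs y le_rfl hy h2

/-- `y ∈ L`, `y ≥ 0`, `2 y + 1 ∈ L` forces `y = (4 ^ j - 1) / 3` -/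
private lemma two_mul_add_one_mem {y : ℤ} (hy : y ∈ L) (h0 : 0 ≤ y) (h2 : 2 * y + 1 ∈ L) :
    ∃ j : ℕ, 3 * y + 1 = 4 ^ j := by
  have key : ∀ N : ℕ, ∀ y : ℤ, y.natAbs ≤ N → 0 ≤ y → y ∈ L → 2 * y + 1 ∈ L →
      ∃ j : ℕ, 3 * y + 1 = 4 ^ j := by
    intro N
    induction N with
    | zero => intro y h _ _ _; exact ⟨0, by simp; omega⟩
    | succ N ih =>
      intro y hN h0 hy h2
      obtain ⟨y', hy', a, ha, rfl⟩ := uncons hy
      obtain ⟨x', hx', b, hb, hx⟩ := uncons h2
      rcases ha with h | h | h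
      · subst h
        have hb1 : b = -1 := by rcases hb with h' | h' | h' <;> omega
        subst hb1
        have hx2 : x' = 2 * y' := by omega
        subst hx2
        have := two_mul_mem hy' hx'
        omega
      · subst h
        have hb1 : b = 1 := by rcases hb with h' | h' | h' <;> omega
        subst hb1
        have hx2 : x' = 2 * y' := by omega
        subst hx2
        have := two_mul_mem hy' hx'
        exact ⟨0, by simp; omega⟩
      · subst h
        have hb1 : b = -1 := by rcases hb with h' | h' | h' <;> omega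
        subst hb1
        have hx2 : x' = 2 * y' + 1 := by omega
        subst hx2
        obtain ⟨j, hj⟩ := ih y' (by omega) (by omega) hy' hx'
        exact ⟨j + 1, by rw [pow_succ, ← hj]; ring⟩
  exact key y.natAbs y le_rfl h0 hy h2

/-- the lower bound for multipliers of `2 * 4 ^ n + 5` -/
private lemma lower (t : ℕ) {m : ℤ} (hm0 : 0 < m) (hm : m ∈ L)
    (hk : (2 * 4 ^ (t + 2) + 5) * m ∈ L) :
    4 ^ (2 * (t + 2)) - 8 * 4 ^ (t + 2) < 12 * m := by
  by_contra hcon
  push Not at hcon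
  set T : ℤ := 4 ^ t with hT
  have hTpos : 1 ≤ T := one_le_pow₀ (by norm_num)
  have hA : (4 : ℤ) ^ (t + 2) = 16 * T := by rw [pow_add]; ring
  have hA2 : (4 : ℤ) ^ (2 * (t + 2)) = 256 * T * T := by
    rw [show 2 * (t + 2) = (t + 2) + (t + 2) by ring, pow_add, hA]; ring
  rw [hA, hA2] at hcon
  obtain ⟨Y1, hY1, Y0, hY0, hY0u, hY0l, hm'⟩ := split (t + 2) hm
  obtain ⟨X', hX', X0, hX0, hX0u, hX0l, hx'⟩ := split (t + 2) hk
  obtain ⟨X2, hX2, X1, hX1, hX1u, hX1l, hx2⟩ := split (t + 2) hX'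
  rw [hA] at hY0u hY0l hX0u hX0l hX1u hX1l hm' hx' hx2
  -- the carries
  set c0 : ℤ := X' - (2 * Y0 + 5 * Y1) - 32 * T * Y1 with hc0
  have e0 : 16 * T * c0 = 5 * Y0 - X0 := by
    rw [hc0]; rw [hm'] at hx'; linear_combination (-1 : ℤ) * hx'
  set c1 : ℤ := X2 - 2 * Y1 with hc1
  have e1 : 16 * T * c1 = c0 + 2 * Y0 + 5 * Y1 - X1 := by
    rw [hc1, hc0, hx2]; ring
  have hc0b : c0 = -1 ∨ c0 = 0 ∨ c0 = 1 := by
    have h1 : c0 < 2 := by
      by_contra h; push Not at h; nlinarith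
    have h2 : -2 < c0 := by
      by_contra h; push Not at h; nlinarith
    omega
  -- Y1 is between 0 and (4T-1)/3
  have hY1n : 0 ≤ Y1 := by
    by_contra h; push Not at h
    have : Y1 ≤ -1 := by omega
    nlinarith
  have hY1u : 3 * Y1 < 4 * T - 1 := by
    by_contra h; push Not at h
    nlinarith
  have hc1b : c1 = -1 ∨ c1 = 0 ∨ c1 = 1 := by
    have h1 : c1 < 2 := by
      by_contra h; push Not at h; rcases hc0b with h' | h' | h' <;> rw [h'] at e1 <;> nlinarith
    have h2 : -2 < c1 := by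
      by_contra h; push Not at h; rcases hc0b with h' | h' | h' <;> rw [h'] at e1 <;> nlinarith
    omega
  rcases hc1b with h1 | h1 | h1
  · -- c1 = -1
    rw [h1] at e1
    rcases hc0b with h' | h' | h'
    · rw [h'] at e1 e0
      have hY10 : Y1 = 0 := by linarith
      have : Y0 < 0 := by linarith
      rw [hY10] at hm'
      nlinarith
    · rw [h'] at e1; nlinarith
    · rw [h'] at e1; nlinarith
  · -- c1 = 0
    have hX2' : X2 = 2 * Y1 := by omega
    rw [hX2'] at hX2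
    have hY10 : Y1 = 0 := two_mul_mem hY1 hX2
    rw [h1, hY10] at e1
    rw [hY10] at hm'
    have hm1 : m = Y0 := by linarith
    rcases hc0b with h' | h' | h'
    · rw [h'] at e0; nlinarith
    · have : X1 = 2 * Y0 := by rw [h'] at e1; linarith
      rw [this] at hX1
      have := two_mul_mem hY0 hX1
      omega
    · have hX1' : X1 = 2 * Y0 + 1 := by rw [h'] at e1; linarith
      rw [hX1'] at hX1
      obtain ⟨j, hj⟩ := two_mul_add_one_mem hY0 (by omega) hX1
      rw [h'] at e0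
      have hlow : 32 * T + 1 ≤ 15 * Y0 := by linarith
      have hup : 6 * Y0 + 4 ≤ 16 * T := by linarith
      rcases Nat.lt_or_ge j (t + 2) with hlt | hge
      · have h4 : (4 : ℤ) ^ j ≤ 4 ^ (t + 1) := pow_le_pow_right₀ (by norm_num) (by omega)
        rw [pow_succ, ← hT] at h4
        linarith
      · have h4 : (4 : ℤ) ^ (t + 2) ≤ 4 ^ j := pow_le_pow_right₀ (by norm_num) hge
        rw [hA] at h4
        linarith
  · -- c1 = 1
    have hX2' : X2 = 2 * Y1 + 1 := by omega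
    rw [hX2'] at hX2
    obtain ⟨j, hj⟩ := two_mul_add_one_mem hY1 hY1n hX2
    have hjt : j < t + 1 := by
      by_contra hge; push Not at hge
      have h4 : (4 : ℤ) ^ (t + 1) ≤ 4 ^ j := pow_le_pow_right₀ (by norm_num) hge
      rw [pow_succ, ← hT] at h4
      linarith
    have hY1T : 3 * Y1 + 1 ≤ T := by
      have h4 : (4 : ℤ) ^ j ≤ 4 ^ t := pow_le_pow_right₀ (by norm_num) (by omega)
      rw [← hT] at h4
      linarith
    rw [h1] at e1
    rcases hc0b with h' | h' | h' <;> rw [h'] at e0 e1 <;> linarith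

/-! ### the multiplier of `2 * 4 ^ n + 5` -/

/-- `E j = (4 ^ j - 1) / 3` -/
private def E : ℕ → ℤ
  | 0 => 0
  | j + 1 => 4 * E j + 1

private lemma three_E (j : ℕ) : 3 * E j = 4 ^ j - 1 := by
  induction j with
  | zero => simp [E]
  | succ j ih => rw [E, pow_succ]; linarith

private lemma E_mem (j : ℕ) : E j ∈ L := by
  induction j with
  | zero => exact zero_mem
  | succ j ih => exact cons_mem ih (by simp)

private lemma pow_mul_mem (j : ℕ) {Y : ℤ} (hY : Y ∈ L) : 4 ^ j * Y ∈ L := by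
  induction j with
  | zero => simpa using hY
  | succ j ih =>
    have := cons_mem ih (a := 0) (by simp)
    rw [show (4 : ℤ) ^ (j + 1) * Y = 4 * (4 ^ j * Y) + 0 by ring]
    exact this

private lemma pow_mul_sub_mem (j : ℕ) {Y : ℤ} (hY : Y ∈ L) : 4 ^ j * Y - E j ∈ L := by
  induction j with
  | zero => simpa [E] using hY
  | succ j ih =>
    have := cons_mem ih (a := -1) (by simp)
    rw [show (4 : ℤ) ^ (j + 1) * Y - E (j + 1) = 4 * (4 ^ j * Y - E j) + -1 by rw [E]; ring]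
    exact this

private lemma upper (s : ℕ) : ∃ m : ℤ, 0 < m ∧ m ∈ L ∧ (2 * 4 ^ (s + 4) + 5) * m ∈ L ∧
    12 * m < 4 ^ (2 * (s + 4)) := by
  set S : ℤ := 4 ^ s with hS
  have hSpos : 1 ≤ S := one_le_pow₀ (by norm_num)
  have h3 := three_E (s + 4)
  have h3' := three_E (s + 1)
  have hA : (4 : ℤ) ^ (s + 4) = 256 * S := by rw [pow_add]; ring
  have hB : (4 : ℤ) ^ (s + 1) = 4 * S := by rw [pow_add]; ring
  have hC : (4 : ℤ) ^ (s + 2) = 16 * S := by rw [pow_add]; ring
  have hA2 : (4 : ℤ) ^ (2 * (s + 4)) = 65536 * S * S := by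
    rw [show 2 * (s + 4) = (s + 4) + (s + 4) by ring, pow_add, hA]; ring
  have hone : (1 : ℤ) ∈ L := by simpa using cons_mem zero_mem (a := 1) (by simp)
  rw [hA] at h3
  rw [hB] at h3'
  -- the multiplier
  have hm : 4 * (4 ^ (s + 1) * (4 * E (s + 4) + -1)) + 1 ∈ L :=
    cons_mem (pow_mul_mem _ (cons_mem (E_mem _) (by simp))) (by simp)
  -- the product
  have h0 : 4 ^ (s + 4) * 1 - E (s + 4) ∈ L := pow_mul_sub_mem _ hone
  have h1 : 4 * (4 ^ (s + 4) * 1 - E (s + 4)) + 1 ∈ L := cons_mem h0 (by simp)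
  have h2 := pow_mul_sub_mem (s + 1) h1
  have h4 : 4 * (4 * (4 * (4 ^ (s + 1) * (4 * (4 ^ (s + 4) * 1 - E (s + 4)) + 1) - E (s + 1)) + 0)
      + 0) + -1 ∈ L := cons_mem (cons_mem (cons_mem h2 (by simp)) (by simp)) (by simp)
  have h5 := cons_mem (cons_mem (pow_mul_mem s h4) (a := 1) (by simp)) (a := 1) (by simp)
  refine ⟨_, ?_, hm, ?_, ?_⟩
  · rw [hB]; nlinarith
  · convert h5 using 1
    rw [hA, hB, ← hS]
    have e1 : E (s + 4) = 85 * S + E s := by
      have := three_E s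
      rw [← hS] at this
      linarith
    have e2 : E (s + 1) = S + E s := by
      have := three_E s
      rw [← hS] at this
      linarith
    have e3 := three_E s
    rw [← hS] at e3
    have e4 : S = 3 * E s + 1 := by linarith
    rw [e1, e2, e4]
    ring
  · rw [hB, hA2]; nlinarith

/-- **Main result.**  (1) For every `n ≥ 4` the odd number `k = 2 * 4 ^ n + 5` has a multiplier
`m` with `12 m < 4 ^ (2 n)`, and each of its multipliers satisfies
`12 m > 4 ^ (2 n) - 8 * 4 ^ n`.  (2) If for some reals `A`, `C` every odd `k` with `3 ≤ |k|` has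
a multiplier `m ≤ A * |k| ^ C`, then `C ≥ 2`. -/
theorem result :
    (∀ n : ℕ, 4 ≤ n →
      (∃ m : ℤ, 0 < m ∧ m ∈ L ∧ (2 * 4 ^ n + 5) * m ∈ L ∧ 12 * m < 4 ^ (2 * n)) ∧
      (∀ m : ℤ, 0 < m → m ∈ L → (2 * 4 ^ n + 5) * m ∈ L →
        4 ^ (2 * n) - 8 * 4 ^ n < 12 * m)) ∧
    (∀ A C : ℝ, (∀ k : ℤ, Odd k → 3 ≤ |k| →
      ∃ m : ℤ, 0 < m ∧ m ∈ L ∧ k * m ∈ L ∧ (m : ℝ) ≤ A * ((|k| : ℤ) : ℝ) ^ C) → 2 ≤ C) := by
  have hlow : ∀ n : ℕ, 4 ≤ n → ∀ m : ℤ, 0 < m → m ∈ L → (2 * 4 ^ n + 5) * m ∈ L →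
        4 ^ (2 * n) - 8 * 4 ^ n < 12 * m := by
    intro n hn m h1 h2 h3
    obtain ⟨t, rfl⟩ : ∃ t, n = t + 2 := ⟨n - 2, by omega⟩
    exact lower t h1 h2 h3
  refine ⟨fun n hn => ⟨?_, hlow n hn⟩, ?_⟩
  · obtain ⟨s, rfl⟩ : ∃ s, n = s + 4 := ⟨n - 4, by omega⟩
    exact upper s
  · intro A C hall
    by_contra hC
    push Not at hC
    -- pass to a nonnegative exponent
    set D : ℝ := max C 0 with hD
    have hD0 : 0 ≤ D := le_max_right _ _
    have hCD : C ≤ D := le_max_left _ _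
    have hD2 : D < 2 := max_lt hC (by norm_num)
    have htend : Filter.Tendsto (fun n : ℕ => ((4 : ℝ) ^ n) ^ (2 - D)) Filter.atTop
        Filter.atTop :=
      (tendsto_rpow_atTop (by linarith : 0 < 2 - D)).comp
        (tendsto_pow_atTop_atTop_of_one_lt (by norm_num : (1 : ℝ) < 4))
    obtain ⟨n, hn, hn4⟩ := ((htend.eventually_gt_atTop (24 * A * 3 ^ D)).and
      (Filter.eventually_ge_atTop 4)).exists
    have hkpos : (0 : ℤ) < 2 * 4 ^ n + 5 := by positivity
    have hkodd : Odd (2 * 4 ^ n + 5 : ℤ) := ⟨4 ^ n + 2, by ring⟩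
    have habs : |(2 * 4 ^ n + 5 : ℤ)| = 2 * 4 ^ n + 5 := abs_of_pos hkpos
    have h3k : 3 ≤ |(2 * 4 ^ n + 5 : ℤ)| := by
      rw [habs]
      have : (0 : ℤ) < 4 ^ n := by positivity
      linarith
    obtain ⟨m, hm0, hm, hkm, hle⟩ := hall _ hkodd h3k
    have hlo := hlow n hn4 m hm0 hm hkm
    rw [habs] at hle
    set x : ℝ := (4 : ℝ) ^ n with hx
    have hx256 : 256 ≤ x := by
      have : (4 : ℝ) ^ 4 ≤ 4 ^ n := pow_le_pow_right₀ (by norm_num) hn4
      rw [hx]; norm_num at this ⊢; linarith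
    have hlo' : x * x - 8 * x < 12 * (m : ℝ) := by
      have h := hlo
      have h' : ((4 ^ (2 * n) - 8 * 4 ^ n : ℤ) : ℝ) < ((12 * m : ℤ) : ℝ) := by exact_mod_cast h
      push_cast at h'
      rw [two_mul, pow_add, ← hx] at h'
      linarith
    have hcast : (((2 * 4 ^ n + 5 : ℤ)) : ℝ) = 2 * x + 5 := by push_cast; rw [hx]
    rw [hcast] at hle
    have hApos : 0 < A := by
      have h1 : (0 : ℝ) < m := by exact_mod_cast hm0
      have h2 : 0 < (2 * x + 5) ^ C := Real.rpow_pos_of_pos (by linarith) C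
      by_contra hA
      push Not at hA
      nlinarith [mul_nonpos_of_nonpos_of_nonneg hA h2.le]
    have hle2 : (2 * x + 5) ^ C ≤ (3 * x) ^ D :=
      calc (2 * x + 5) ^ C ≤ (2 * x + 5) ^ D :=
            Real.rpow_le_rpow_of_exponent_le (by linarith) hCD
        _ ≤ (3 * x) ^ D := Real.rpow_le_rpow (by linarith) (by linarith) hD0
    have hle3 : (3 * x) ^ D = 3 ^ D * x ^ D := Real.mul_rpow (by norm_num) (by linarith)
    have hxx : x * x = x ^ (2 - D) * x ^ D := by
      rw [← Real.rpow_add (by linarith)]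
      rw [show 2 - D + D = ((2 : ℕ) : ℝ) by push_cast; ring, Real.rpow_natCast]
      ring
    have hxD : 0 < x ^ D := Real.rpow_pos_of_pos (by linarith) D
    have h5 : (m : ℝ) ≤ A * (3 ^ D * x ^ D) :=
      hle.trans (by rw [← hle3]; exact mul_le_mul_of_nonneg_left hle2 hApos.le)
    have h6 : x * x < 24 * (m : ℝ) := by nlinarith
    have h7 : x ^ (2 - D) * x ^ D < (24 * A * 3 ^ D) * x ^ D := by
      rw [← hxx]; nlinarith
    have h8 : x ^ (2 - D) < 24 * A * 3 ^ D := lt_of_mul_lt_mul_right h7 hxD.le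
    linarith

end Pool.Agent.Results.MP_c52340_nt.QuadraticLowerBound
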